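import Mathlib

set_option autoImplicit false

namespace Pool.Agent.Results.MP_22b8ff_nt.LowDiscrepancy

open Finset Filter

/-- Distance to the nearest integer. -/
noncomputable def nint (x : ℝ) : ℝ := |x - round x|

/-- Membership of a real number in the set `Bad_p`: the infimum over the integers `q ≥ 1` of
`q * |q|_p * ‖q α‖` is positive. -/
def BadP (p : ℕ) (α : ℝ) : Prop :=
  0 < ⨅ q : {q : ℕ // 1 ≤ q},
    ((q : ℕ) : ℝ) * ((padicNorm p ((q : ℕ) : ℚ) : ℚ) : ℝ) * nint (((q : ℕ) : ℝ) * α)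

/-- The van der Corput sequence in base `p`: the digit of `n` at place `i` is `n / p ^ i % p`
(it is zero for `i ≥ n`). -/
noncomputable def phi (p n : ℕ) : ℝ :=
  ∑ i ∈ range n, ((n / p ^ i % p : ℕ) : ℝ) / (p : ℝ) ^ (i + 1)

/-- The hybrid sequence. -/
noncomputable def hybrid (p : ℕ) (α : ℝ) (n : ℕ) : ℝ × ℝ := (Int.fract ((n : ℝ) * α), phi p n)

open Classical in
/-- The star discrepancy of the first `N` points of a sequence in the unit square. -/
noncomputable def discr (x : ℕ → ℝ × ℝ) (N : ℕ) : ℝ :=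
  ⨆ ab : Set.Icc (0 : ℝ) 1 × Set.Icc (0 : ℝ) 1,
    |1 / (N : ℝ) * ((((range N).filter fun n =>
        x n ∈ Set.Ico (0 : ℝ) (ab.1 : ℝ) ×ˢ Set.Ico (0 : ℝ) (ab.2 : ℝ)).card : ℕ) : ℝ)
      - (ab.1 : ℝ) * (ab.2 : ℝ)|

/-! ### The Kronecker sequence of a badly approximable number -/

open Classical in
noncomputable def cnt (β γ u v : ℝ) (M : ℕ) : ℝ :=
  ∑ m ∈ range M, if Int.fract (γ + (m : ℝ) * β) ∈ Set.Ico u v then (1 : ℝ) else 0

theorem cnt_nonneg (β γ u v : ℝ) (M : ℕ) : 0 ≤ cnt β γ u v M := by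
  unfold cnt
  apply Finset.sum_nonneg
  intro i _
  split_ifs <;> norm_num

theorem cnt_add (β γ u v : ℝ) (M M' : ℕ) :
    cnt β γ u v (M + M') = cnt β γ u v M + cnt β (γ + M * β) u v M' := by
  unfold cnt
  rw [Finset.sum_range_add]
  congr 1
  apply Finset.sum_congr rfl
  intro m _
  have : γ + ((M + m : ℕ) : ℝ) * β = γ + M * β + m * β := by push_cast; ring
  rw [this]

theorem block (β γ u v : ℝ) (huv : u ≤ v) (q : ℕ) (hq : 0 < q) (a : ℤ)
    (hcop : IsCoprime (q : ℤ) a) (h : |(q : ℝ) * β - a| ≤ 1 / (q : ℝ)) :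
    cnt β γ u v q ≤ q * (v - u) + 3 := by
  classical
  have hq' : (0 : ℝ) < q := by exact_mod_cast hq
  unfold cnt
  rw [Finset.sum_boole]
  set S := (range q).filter fun m : ℕ => Int.fract (γ + (m : ℝ) * β) ∈ Set.Ico u v with hS
  set A : ℝ := q * u - q * γ - 1 with hA
  set B : ℝ := q * v - q * γ + 1 with hB
  let f : ℕ → ℤ := fun m => (m : ℤ) * a - q * ⌊γ + (m : ℝ) * β⌋
  have hmaps : ∀ m ∈ S, f m ∈ Finset.Ico ⌈A⌉ ⌈B⌉ := by
    intro m hm
    rw [hS, Finset.mem_filter, Finset.mem_range] at hm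
    obtain ⟨hmq, hm1, hm2⟩ := hm
    have hmq' : (m : ℝ) ≤ q := by exact_mod_cast hmq.le
    have hm0 : (0 : ℝ) ≤ m := by positivity
    have h1 : |(m : ℝ) * ((q : ℝ) * β - a)| ≤ 1 := by
      rw [abs_mul, abs_of_nonneg hm0]
      calc (m : ℝ) * |(q : ℝ) * β - a| ≤ q * (1 / q) := by
            apply mul_le_mul hmq' h (abs_nonneg _) hq'.le
        _ = 1 := by field_simp
    rw [abs_le] at h1
    have hfr : Int.fract (γ + (m : ℝ) * β) = γ + (m : ℝ) * β - ⌊γ + (m : ℝ) * β⌋ := rfl
    have hk : ((f m : ℤ) : ℝ) = q * Int.fract (γ + (m : ℝ) * β) - q * γ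
        - (m : ℝ) * ((q : ℝ) * β - a) := by
      rw [hfr]
      simp only [f]
      push_cast
      ring
    rw [Finset.mem_Ico]
    constructor
    · rw [Int.ceil_le, hk, hA]
      have := mul_le_mul_of_nonneg_left hm1 hq'.le
      linarith [h1.2]
    · rw [Int.lt_ceil, hk, hB]
      have := mul_lt_mul_of_pos_left hm2 hq'
      linarith [h1.1]
  have hinj : Set.InjOn f S := by
    intro m hm n hn hmn
    rw [Finset.mem_coe, hS, Finset.mem_filter, Finset.mem_range] at hm hn
    simp only [f] at hmn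
    have hdvd : (q : ℤ) ∣ ((m : ℤ) - n) * a := by
      refine ⟨⌊γ + (m : ℝ) * β⌋ - ⌊γ + (n : ℝ) * β⌋, ?_⟩
      linarith
    have hdvd2 : (q : ℤ) ∣ ((m : ℤ) - n) := hcop.dvd_of_dvd_mul_right hdvd
    have h3 : (m : ℤ) - n = 0 := by
      apply Int.eq_zero_of_abs_lt_dvd hdvd2
      rw [abs_lt]
      constructor <;> omega
    omega
  have hcard : S.card ≤ (Finset.Ico ⌈A⌉ ⌈B⌉).card := Finset.card_le_card_of_injOn f hmaps hinj
  rw [Int.card_Ico] at hcard
  have hcard' : (S.card : ℝ) ≤ (((⌈B⌉ - ⌈A⌉).toNat : ℕ) : ℝ) := by exact_mod_cast hcard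
  have h4 : (((⌈B⌉ - ⌈A⌉).toNat : ℕ) : ℝ) ≤ q * (v - u) + 3 := by
    have h5 : (((⌈B⌉ - ⌈A⌉).toNat : ℤ) : ℝ) = ((max (⌈B⌉ - ⌈A⌉) 0 : ℤ) : ℝ) := by
      rw [Int.toNat_eq_max]
    have h6 : (((⌈B⌉ - ⌈A⌉).toNat : ℕ) : ℝ) = ((max (⌈B⌉ - ⌈A⌉) 0 : ℤ) : ℝ) := by
      rw [← h5]; norm_cast
    rw [h6]
    push_cast
    apply max_le
    · have h7 := Int.ceil_lt_add_one B
      have h8 := Int.le_ceil A
      have : B - A = q * (v - u) + 2 := by rw [hA, hB]; ring
      linarith
    · have : 0 ≤ (q : ℝ) * (v - u) := mul_nonneg hq'.le (by linarith)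
      linarith
  linarith

theorem cnt_upper (β c : ℝ) (hc : 0 < c)
    (hβ : ∀ q : ℕ, 1 ≤ q → c ≤ (q : ℝ) * nint ((q : ℝ) * β)) (u v : ℝ) (huv : u ≤ v) :
    ∀ (L M : ℕ) (γ : ℝ), M < 2 ^ L → cnt β γ u v M ≤ M * (v - u) + 3 * L / c := by
  intro L
  induction L with
  | zero =>
    intro M γ hM
    have : M = 0 := by simpa using hM
    subst this
    simp [cnt]
  | succ L ih =>
    intro M γ hM
    rcases Nat.eq_zero_or_pos M with h0 | hMpos
    · subst h0
      simp only [cnt, Finset.range_zero, Finset.sum_empty]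
      have : (0 : ℝ) ≤ 3 * ((L + 1 : ℕ) : ℝ) / c := by positivity
      simpa using this
    · obtain ⟨x, hx1, hx2⟩ := Real.exists_rat_abs_sub_le_and_den_le β hMpos
      set q := x.den with hq
      have hqpos : 0 < q := x.den_pos
      have hq' : (0 : ℝ) < q := by exact_mod_cast hqpos
      have hM1 : (0 : ℝ) < (M : ℝ) + 1 := by positivity
      have hxq : (q : ℝ) * (x : ℝ) = x.num := by
        have := Rat.mul_den_eq_num x
        have h2 : ((x * (x.den : ℚ) : ℚ) : ℝ) = ((x.num : ℚ) : ℝ) := by rw [this]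
        push_cast at h2
        rw [hq]
        linarith
      have h1 : |(q : ℝ) * β - x.num| ≤ 1 / ((M : ℝ) + 1) := by
        have : (q : ℝ) * β - x.num = q * (β - x) := by rw [mul_sub, hxq]
        rw [this, abs_mul, abs_of_pos hq']
        calc (q : ℝ) * |β - x| ≤ q * (1 / (((M : ℝ) + 1) * q)) := by
              apply mul_le_mul_of_nonneg_left hx1 hq'.le
          _ = 1 / ((M : ℝ) + 1) := by field_simp
      have hqM : (q : ℝ) ≤ M := by exact_mod_cast hx2
      have h2 : |(q : ℝ) * β - x.num| ≤ 1 / (q : ℝ) := by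
        refine h1.trans ?_
        apply one_div_le_one_div_of_le hq'
        linarith
      have hcq : c * ((M : ℝ) + 1) ≤ q := by
        have h3 := hβ q hqpos
        have h4 : nint ((q : ℝ) * β) ≤ 1 / ((M : ℝ) + 1) :=
          (round_le ((q : ℝ) * β) x.num).trans h1
        have h5 : c ≤ q * (1 / ((M : ℝ) + 1)) :=
          h3.trans (mul_le_mul_of_nonneg_left h4 hq'.le)
        rw [mul_one_div, le_div_iff₀ hM1] at h5
        exact h5
      have hcop : IsCoprime (q : ℤ) x.num := by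
        have := x.isCoprime_num_den
        exact this.symm
      have hblocks : ∀ (s r : ℕ) (γ : ℝ), r < 2 ^ L →
          cnt β γ u v (q * s + r) ≤ s * (q * (v - u) + 3) + (r * (v - u) + 3 * L / c) := by
        intro s
        induction s with
        | zero =>
          intro r γ hr
          simpa using ih r γ hr
        | succ s ihs =>
          intro r γ hr
          have : q * (s + 1) + r = q + (q * s + r) := by ring
          rw [this, cnt_add]
          have h6 := block β γ u v huv q hqpos x.num hcop h2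
          have h7 := ihs r (γ + q * β) hr
          push_cast
          linarith
      have hdm : q * (M / q) + M % q = M := Nat.div_add_mod M q
      have hr : M % q < 2 ^ L := by
        have h8 : M % q < q := Nat.mod_lt _ hqpos
        have h9 : 1 ≤ M / q := (Nat.one_le_div_iff hqpos).mpr hx2
        have h10 : q * 1 ≤ q * (M / q) := Nat.mul_le_mul_left _ h9
        have h11 : 2 ^ (L + 1) = 2 * 2 ^ L := by ring
        omega
      have h12 := hblocks (M / q) (M % q) γ hr
      rw [hdm] at h12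
      have h13 : (q : ℝ) * ((M / q : ℕ) : ℝ) + ((M % q : ℕ) : ℝ) = M := by exact_mod_cast hdm
      have h14 : ((M / q : ℕ) : ℝ) ≤ 1 / c := by
        rw [le_div_iff₀ hc]
        have h15 : (q : ℝ) * ((M / q : ℕ) : ℝ) ≤ M := by
          have : (0 : ℝ) ≤ ((M % q : ℕ) : ℝ) := by positivity
          linarith
        have h16 : (0 : ℝ) ≤ ((M / q : ℕ) : ℝ) := by positivity
        have h17 : c * ((M : ℝ) + 1) * ((M / q : ℕ) : ℝ) ≤ q * ((M / q : ℕ) : ℝ) :=
          mul_le_mul_of_nonneg_right hcq h16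
        have h18 : (((M / q : ℕ) : ℝ) * c) * ((M : ℝ) + 1) ≤ 1 * ((M : ℝ) + 1) := by linarith
        exact le_of_mul_le_mul_right h18 hM1
      have h19 : (M : ℝ) * (v - u) = ((M / q : ℕ) : ℝ) * (q * (v - u)) + ((M % q : ℕ) : ℝ) * (v - u) := by
        rw [← h13]
        ring
      have h20 : 3 * ((L + 1 : ℕ) : ℝ) / c = 3 * (1 / c) + 3 * L / c := by
        push_cast
        field_simp
        ring
      rw [h19, h20]
      linarith

theorem cnt_two_sided (β c : ℝ) (hc : 0 < c)
    (hβ : ∀ q : ℕ, 1 ≤ q → c ≤ (q : ℝ) * nint ((q : ℝ) * β)) (a : ℝ) (ha0 : 0 ≤ a) (ha1 : a ≤ 1)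
    (L M : ℕ) (γ : ℝ) (hM : M < 2 ^ L) : |cnt β γ 0 a M - a * M| ≤ 3 * L / c := by
  have h1 := cnt_upper β c hc hβ 0 a ha0 L M γ hM
  have h2 := cnt_upper β c hc hβ a 1 ha1 L M γ hM
  have h3 : cnt β γ 0 a M + cnt β γ a 1 M = M := by
    classical
    unfold cnt
    rw [← Finset.sum_add_distrib]
    rw [Finset.sum_congr rfl (g := fun _ => (1 : ℝ))]
    · simp
    · intro m _
      have hf0 := Int.fract_nonneg (γ + (m : ℝ) * β)
      have hf1 := Int.fract_lt_one (γ + (m : ℝ) * β)
      by_cases h : Int.fract (γ + (m : ℝ) * β) < a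
      · rw [if_pos ⟨hf0, h⟩, if_neg (fun h' => absurd h'.1 (not_le.mpr h))]
        norm_num
      · rw [if_neg (fun h' => h h'.2), if_pos ⟨not_lt.mp h, hf1⟩]
        norm_num
  rw [abs_le]
  constructor <;> linarith

/-! ### The van der Corput sequence -/

theorem phi_eq_of_le (p : ℕ) (hp : 2 ≤ p) (n K : ℕ) (hK : n ≤ K) :
    phi p n = ∑ i ∈ range K, ((n / p ^ i % p : ℕ) : ℝ) / (p : ℝ) ^ (i + 1) := by
  unfold phi
  obtain ⟨d, rfl⟩ := Nat.exists_eq_add_of_le hK
  rw [Finset.sum_range_add]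
  have : ∑ x ∈ range d, ((n / p ^ (n + x) % p : ℕ) : ℝ) / (p : ℝ) ^ (n + x + 1) = 0 := by
    apply Finset.sum_eq_zero
    intro x _
    have h1 : n < p ^ (n + x) :=
      lt_of_le_of_lt (Nat.le_add_right n x) (Nat.lt_pow_self (by omega))
    rw [Nat.div_eq_of_lt h1]
    simp
  rw [this, add_zero]

theorem phi_rec (p : ℕ) (hp : 2 ≤ p) (r m : ℕ) (hr : r < p) :
    phi p (r + p * m) = ((r : ℝ) + phi p m) / p := by
  have hp0 : (p : ℝ) ≠ 0 := by positivity
  rw [phi_eq_of_le p hp (r + p * m) (r + p * m + m + 1) (by omega),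
    phi_eq_of_le p hp m (r + p * m + m) (by omega), Finset.sum_range_succ', add_comm]
  have h0 : (((r + p * m) / p ^ 0 % p : ℕ) : ℝ) / (p : ℝ) ^ (0 + 1) = r / p := by
    rw [pow_zero, Nat.div_one, Nat.add_mul_mod_self_left, Nat.mod_eq_of_lt hr]
    simp
  rw [h0, add_div, Finset.sum_div]
  congr 1
  apply Finset.sum_congr rfl
  intro i _
  have h1 : (r + p * m) / p ^ (i + 1) = m / p ^ i := by
    rw [pow_succ', ← Nat.div_div_eq_div_mul, Nat.add_mul_div_left _ _ (by omega),
      Nat.div_eq_of_lt hr, zero_add]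
  rw [h1, div_div]
  congr 1
  

theorem phi_nonneg (p n : ℕ) : 0 ≤ phi p n := by
  unfold phi
  apply Finset.sum_nonneg
  intro i _
  positivity

theorem phi_lt_one (p : ℕ) (hp : 2 ≤ p) (n : ℕ) : phi p n < 1 := by
  induction n using Nat.strong_induction_on with
  | _ n ih =>
    rcases Nat.eq_zero_or_pos n with h0 | hpos
    · subst h0
      simp [phi]
    · have h1 : n % p + p * (n / p) = n := Nat.mod_add_div n p
      have h2 : n % p < p := Nat.mod_lt _ (by omega)
      have h3 : n / p < n := Nat.div_lt_self hpos (by omega)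
      rw [← h1, phi_rec p hp _ _ h2, div_lt_one (by positivity)]
      have h4 := ih (n / p) h3
      have h5 : ((n % p : ℕ) : ℝ) + 1 ≤ p := by exact_mod_cast h2
      linarith

/-! ### Splitting a sum into residue classes -/

theorem sum_split (p : ℕ) (hp : 0 < p) (N : ℕ) (f : ℕ → ℝ) :
    ∑ n ∈ range N, f n = ∑ r ∈ range p, ∑ m ∈ range ((N + (p - 1 - r)) / p), f (r + p * m) := by
  classical
  rw [← Finset.sum_fiberwise_of_maps_to (s := range N) (t := range p) (g := fun n => n % p)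
    (fun n _ => Finset.mem_range.mpr (Nat.mod_lt n hp))]
  apply Finset.sum_congr rfl
  intro r hr
  rw [Finset.mem_range] at hr
  apply Finset.sum_nbij' (fun n => n / p) (fun m => r + p * m)
  · intro n hn
    rw [Finset.mem_filter, Finset.mem_range] at hn
    obtain ⟨h1, h2⟩ := hn
    rw [Finset.mem_range, Nat.lt_iff_add_one_le, Nat.le_div_iff_mul_le hp]
    have h3 : n % p + p * (n / p) = n := Nat.mod_add_div n p
    have h4 : (n / p + 1) * p = p * (n / p) + p := by ring
    rw [h4]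
    omega
  · intro m hm
    rw [Finset.mem_range, Nat.lt_iff_add_one_le, Nat.le_div_iff_mul_le hp] at hm
    have h4 : (m + 1) * p = p * m + p := by ring
    rw [h4] at hm
    rw [Finset.mem_filter, Finset.mem_range]
    refine ⟨by omega, ?_⟩
    rw [Nat.add_mul_mod_self_left, Nat.mod_eq_of_lt hr]
  · intro n hn
    rw [Finset.mem_filter, Finset.mem_range] at hn
    obtain ⟨h1, h2⟩ := hn
    have h3 : n % p + p * (n / p) = n := Nat.mod_add_div n p
    rw [h2] at h3
    exact h3
  · intro m _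
    show (r + p * m) / p = m
    rw [Nat.add_mul_div_left _ _ hp, Nat.div_eq_of_lt hr, zero_add]
  · intro n hn
    rw [Finset.mem_filter, Finset.mem_range] at hn
    obtain ⟨h1, h2⟩ := hn
    have h3 : n % p + p * (n / p) = n := Nat.mod_add_div n p
    rw [h2] at h3
    show f n = f (r + p * (n / p))
    rw [h3]

open Classical in
/-- Number of indices below `N` whose point (with a shift `γ`) is in the box. -/
noncomputable def cnt2 (p : ℕ) (α γ a b : ℝ) (N : ℕ) : ℝ :=
  ∑ n ∈ range N,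
    if Int.fract (γ + (n : ℝ) * α) ∈ Set.Ico 0 a ∧ phi p n < b then (1 : ℝ) else 0

theorem cnt2_split (p : ℕ) (hp : 2 ≤ p) (α γ a b : ℝ) (N : ℕ) :
    cnt2 p α γ a b N = ∑ r ∈ range p,
      cnt2 p (p * α) (γ + r * α) a (p * b - r) ((N + (p - 1 - r)) / p) := by
  classical
  unfold cnt2
  rw [sum_split p (by omega) N]
  apply Finset.sum_congr rfl
  intro r hr
  rw [Finset.mem_range] at hr
  apply Finset.sum_congr rfl
  intro m _
  have h1 : γ + ((r + p * m : ℕ) : ℝ) * α = γ + r * α + m * (p * α) := by push_cast; ring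
  have h2 : phi p (r + p * m) < b ↔ phi p m < p * b - r := by
    rw [phi_rec p hp r m hr, div_lt_iff₀ (by positivity)]
    constructor <;> intro h <;> linarith
  rw [h1]
  simp only [h2]

theorem cnt2_of_one_le (p : ℕ) (hp : 2 ≤ p) (α γ a b : ℝ) (hb : 1 ≤ b) (N : ℕ) :
    cnt2 p α γ a b N = cnt α γ 0 a N := by
  classical
  unfold cnt2 cnt
  apply Finset.sum_congr rfl
  intro m _
  have h1 : phi p m < b := lt_of_lt_of_le (phi_lt_one p hp m) hb
  simp only [h1, and_true]

theorem cnt2_of_nonpos (p : ℕ) (α γ a b : ℝ) (hb : b ≤ 0) (N : ℕ) :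
    cnt2 p α γ a b N = 0 := by
  classical
  unfold cnt2
  apply Finset.sum_eq_zero
  intro m _
  have h1 : ¬ phi p m < b := not_lt.mpr (hb.trans (phi_nonneg p m))
  simp only [h1, and_false, if_false]

theorem cnt2_bounds (p : ℕ) (α γ a b : ℝ) (N : ℕ) :
    0 ≤ cnt2 p α γ a b N ∧ cnt2 p α γ a b N ≤ N := by
  classical
  unfold cnt2
  rw [Finset.sum_boole]
  constructor
  · positivity
  · have := Finset.card_filter_le (range N)
      (fun n : ℕ => Int.fract (γ + (n : ℝ) * α) ∈ Set.Ico 0 a ∧ phi p n < b)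
    rw [Finset.card_range] at this
    exact_mod_cast this

/-- The uniform badness condition on `α`. -/
def UBad (p : ℕ) (c α : ℝ) : Prop :=
  ∀ j q : ℕ, 1 ≤ q → c ≤ (q : ℝ) * nint ((q : ℝ) * ((p : ℝ) ^ j * α))

theorem main_induction (p : ℕ) (hp : 2 ≤ p) (c : ℝ) (hc : 0 < c) (L : ℕ) :
    ∀ (J N : ℕ) (α γ a b : ℝ), UBad p c α → N ≤ p ^ J → N < 2 ^ L → 0 ≤ a → a ≤ 1 → 0 ≤ b →
      b ≤ 1 → |cnt2 p α γ a b N - a * b * N| ≤ 1 + J * (p * (3 * L / c + 1)) := by
  have hp0 : (0 : ℝ) < p := by positivity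
  have hE0 : (0 : ℝ) ≤ 3 * L / c := by positivity
  intro J
  induction J with
  | zero =>
    intro N α γ a b _ hN _ ha0 ha1 hb0 hb1
    rw [pow_zero] at hN
    have h1 := cnt2_bounds p α γ a b N
    have h2 : (N : ℝ) ≤ 1 := by exact_mod_cast hN
    have h3 : (0 : ℝ) ≤ N := by positivity
    have hab0 : 0 ≤ a * b := mul_nonneg ha0 hb0
    have hab1 : a * b ≤ 1 := mul_le_one₀ ha1 hb0 hb1
    have h4 : a * b * N ≤ 1 * 1 := mul_le_mul hab1 h2 h3 (by norm_num)
    have h5 : 0 ≤ a * b * N := mul_nonneg hab0 h3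
    simp only [Nat.cast_zero, zero_mul, add_zero]
    rw [abs_le]
    constructor <;> linarith [h1.1, h1.2]
  | succ J ih =>
    intro N α γ a b hα hN hNL ha0 ha1 hb0 hb1
    have hα' : UBad p c (p * α) := by
      intro j q hq
      have := hα (j + 1) q hq
      rw [pow_succ] at this
      rw [← mul_assoc ((p : ℝ) ^ j)]
      exact this
    set w : ℕ → ℝ := fun r => min (((r + 1 : ℕ) : ℝ)) (p * b) - min ((r : ℕ) : ℝ) (p * b) with hw
    have hwsum : ∑ r ∈ range p, w r = p * b := by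
      rw [hw, Finset.sum_range_sub (fun r : ℕ => min ((r : ℕ) : ℝ) (p * b))]
      have h1 : (p : ℝ) * b ≤ p := by
        calc (p : ℝ) * b ≤ p * 1 := mul_le_mul_of_nonneg_left hb1 hp0.le
          _ = p := mul_one _
      have h2 : 0 ≤ (p : ℝ) * b := mul_nonneg hp0.le hb0
      rw [min_eq_right h1, Nat.cast_zero, min_eq_left h2, sub_zero]
    set E : ℝ := 1 + J * (p * (3 * L / c + 1)) with hE
    have hEnn : 0 ≤ E := by positivity
    have key : ∀ r ∈ range p,
        |cnt2 p (p * α) (γ + r * α) a (p * b - r) ((N + (p - 1 - r)) / p) - a * w r * (N / p)|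
          ≤ (3 * L / c + 1) + if r = ⌊(p : ℝ) * b⌋₊ then E else 0 := by
      intro r hr
      rw [Finset.mem_range] at hr
      set M := (N + (p - 1 - r)) / p with hM
      have hMp : p * M ≤ N + (p - 1 - r) := Nat.mul_div_le _ _
      have hMp2 : N + (p - 1 - r) < p * M + p := by
        have := Nat.lt_mul_div_succ (N + (p - 1 - r)) (show 0 < p by omega)
        rw [mul_add, mul_one] at this
        exact this
      have hMN1 : |(M : ℝ) - N / p| ≤ 1 := by
        have h1 : (p : ℝ) * M ≤ N + p := by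
          have : p * M ≤ N + p := by omega
          exact_mod_cast this
        have h2 : (N : ℝ) ≤ p * M + p := by
          have : N ≤ p * M + p := by omega
          exact_mod_cast this
        rw [abs_le]
        constructor
        · have : (N : ℝ) / p ≤ M + 1 := by
            rw [div_le_iff₀ hp0]
            linarith
          linarith
        · have : (M : ℝ) - 1 ≤ N / p := by
            rw [le_div_iff₀ hp0]
            linarith
          linarith
      have hMJ : M ≤ p ^ J := by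
        rw [hM]
        apply Nat.le_of_lt_succ
        rw [Nat.div_lt_iff_lt_mul (by omega)]
        rw [pow_succ] at hN
        have : (p ^ J).succ * p = p ^ J * p + p := by rw [Nat.succ_mul]
        rw [this]
        omega
      have hML : M < 2 ^ L := by
        rcases Nat.eq_zero_or_pos N with h0 | hpos
        · have : M = 0 := by
            rw [hM, h0]
            apply Nat.div_eq_of_lt
            omega
          rw [this]
          positivity
        · have : M ≤ N := by
            rw [hM]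
            apply Nat.div_le_of_le_mul
            nlinarith [Nat.sub_le (p - 1) r, Nat.sub_add_cancel (show 1 ≤ p by omega),
              Nat.mul_le_mul (show 1 ≤ p - 1 by omega) (show 0 ≤ N - 1 by omega),
              Nat.mul_le_mul_left (p - 1) hpos, Nat.sub_mul p 1 N]
          omega
      have hcntM : ∀ γ' : ℝ, |cnt (p * α) γ' 0 a M - a * M| ≤ 3 * L / c := by
        intro γ'
        apply cnt_two_sided (p * α) c hc _ a ha0 ha1 L M γ' hML
        intro q hq
        have := hα' 0 q hq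
        simpa using this
      rcases lt_trichotomy r ⌊(p : ℝ) * b⌋₊ with hlt | heq | hgt
      · -- full digit
        have h1 : ((r + 1 : ℕ) : ℝ) ≤ p * b := by
          have : r + 1 ≤ ⌊(p : ℝ) * b⌋₊ := hlt
          exact (Nat.le_floor_iff (mul_nonneg hp0.le hb0)).mp this
        have h2 : (r : ℝ) ≤ p * b := by push_cast at h1; linarith
        have hwr : w r = 1 := by
          simp only [hw]
          rw [min_eq_left h1, min_eq_left h2]
          push_cast
          ring
        rw [hwr, cnt2_of_one_le p hp _ _ _ _ (by push_cast at h1; linarith), if_neg hlt.ne]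
        have h3 := hcntM (γ + r * α)
        have h4 : |a * ((M : ℝ) - N / p)| ≤ 1 := by
          rw [abs_mul, abs_of_nonneg ha0]
          exact mul_le_one₀ ha1 (abs_nonneg _) hMN1
        have h5 : cnt (p * α) (γ + r * α) 0 a M - a * 1 * (N / p)
            = (cnt (p * α) (γ + r * α) 0 a M - a * M) + a * ((M : ℝ) - N / p) := by ring
        rw [h5, add_zero]
        exact (abs_add_le _ _).trans (add_le_add h3 h4)
      · -- the boundary digit
        have h1 : (r : ℝ) ≤ p * b := by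
          rw [heq]
          exact Nat.floor_le (mul_nonneg hp0.le hb0)
        have h2 : (p : ℝ) * b < ((r + 1 : ℕ) : ℝ) := by
          rw [heq]
          push_cast
          exact Nat.lt_floor_add_one _
        have hwr : w r = p * b - r := by
          simp only [hw]
          rw [min_eq_right h2.le, min_eq_left h1]
        have h3 := ih M (p * α) (γ + r * α) a (p * b - r) hα' hMJ hML ha0 ha1 (by linarith)
          (by push_cast at h2; linarith)
        rw [hwr, if_pos heq]
        have hb' : |a * (p * b - r)| ≤ 1 := by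
          rw [abs_of_nonneg (mul_nonneg ha0 (by linarith))]
          exact mul_le_one₀ ha1 (by linarith) (by push_cast at h2; linarith)
        have h4 : |a * (p * b - r) * ((M : ℝ) - N / p)| ≤ 1 := by
          rw [abs_mul]
          exact mul_le_one₀ hb' (abs_nonneg _) hMN1
        have h5 : cnt2 p (p * α) (γ + r * α) a (p * b - r) M - a * (p * b - r) * (N / p)
            = (cnt2 p (p * α) (γ + r * α) a (p * b - r) M - a * (p * b - r) * M)
              + a * (p * b - r) * ((M : ℝ) - N / p) := by ring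
        rw [h5]
        have h6 := (abs_add_le (cnt2 p (p * α) (γ + r * α) a (p * b - r) M
          - a * (p * b - r) * M) (a * (p * b - r) * ((M : ℝ) - N / p)))
        linarith
      · -- empty digit
        have h1 : (p : ℝ) * b ≤ r := by
          have h2 : (p : ℝ) * b < ⌊(p : ℝ) * b⌋₊ + 1 := Nat.lt_floor_add_one _
          have h3 : ((⌊(p : ℝ) * b⌋₊ : ℕ) : ℝ) + 1 ≤ r := by exact_mod_cast hgt
          linarith
        have hwr : w r = 0 := by
          simp only [hw]
          rw [min_eq_right h1, min_eq_right (by push_cast; linarith), sub_self]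
        rw [hwr, cnt2_of_nonpos p _ _ _ _ (by linarith), if_neg hgt.ne']
        simp only [mul_zero, zero_mul, sub_zero, abs_zero, add_zero]
        linarith
    have hfin : cnt2 p α γ a b N - a * b * N = ∑ r ∈ range p,
        (cnt2 p (p * α) (γ + r * α) a (p * b - r) ((N + (p - 1 - r)) / p)
          - a * w r * (N / p)) := by
      rw [Finset.sum_sub_distrib, ← cnt2_split p hp, ← Finset.sum_mul, ← Finset.mul_sum, hwsum]
      field_simp
    rw [hfin]
    calc |∑ r ∈ range p, (cnt2 p (p * α) (γ + r * α) a (p * b - r) ((N + (p - 1 - r)) / p)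
          - a * w r * (N / p))|
        ≤ ∑ r ∈ range p, |cnt2 p (p * α) (γ + r * α) a (p * b - r) ((N + (p - 1 - r)) / p)
          - a * w r * (N / p)| := Finset.abs_sum_le_sum_abs _ _
      _ ≤ ∑ r ∈ range p, ((3 * L / c + 1) + if r = ⌊(p : ℝ) * b⌋₊ then E else 0) :=
          Finset.sum_le_sum key
      _ ≤ p * (3 * L / c + 1) + E := by
          rw [Finset.sum_add_distrib, Finset.sum_const, Finset.card_range, nsmul_eq_mul,
            Finset.sum_ite_eq']
          split_ifs <;> linarith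
      _ = 1 + ((J + 1 : ℕ) : ℝ) * (p * (3 * L / c + 1)) := by
          rw [hE]
          push_cast
          ring

/-! ### Conclusion -/

theorem uBad_of_badP (p : ℕ) (hp : p.Prime) (α : ℝ) (hα : BadP p α) :
    ∃ c : ℝ, 0 < c ∧ UBad p c α := by
  have : Fact p.Prime := ⟨hp⟩
  refine ⟨_, hα, ?_⟩
  intro j q hq
  have hbdd : BddBelow (Set.range fun q : {q : ℕ // 1 ≤ q} =>
      ((q : ℕ) : ℝ) * ((padicNorm p ((q : ℕ) : ℚ) : ℚ) : ℝ) * nint (((q : ℕ) : ℝ) * α)) := by
    refine ⟨0, ?_⟩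
    rintro _ ⟨x, rfl⟩
    have h1 : (0 : ℝ) ≤ ((padicNorm p ((x : ℕ) : ℚ) : ℚ) : ℝ) := by
      exact_mod_cast padicNorm.nonneg _
    have h2 : 0 ≤ nint (((x : ℕ) : ℝ) * α) := abs_nonneg _
    positivity
  have hq' : 1 ≤ q * p ^ j := Nat.mul_pos hq (pow_pos hp.pos j)
  refine (ciInf_le hbdd ⟨q * p ^ j, hq'⟩).trans ?_
  have hp0 : (p : ℝ) ≠ 0 := by
    have := hp.ne_zero
    exact_mod_cast this
  have hpn : ∀ i : ℕ, padicNorm p (((p ^ i : ℕ)) : ℚ) = ((p : ℚ) ^ i)⁻¹ := by
    intro i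
    induction i with
    | zero => simp
    | succ i ih =>
      rw [pow_succ]
      push_cast at ih ⊢
      rw [padicNorm.mul, ih, padicNorm.padicNorm_p_of_prime, pow_succ, mul_inv]
  have h3 : ((padicNorm p ((q * p ^ j : ℕ) : ℚ) : ℚ) : ℝ)
      = ((padicNorm p (q : ℚ) : ℚ) : ℝ) * ((p : ℝ) ^ j)⁻¹ := by
    have : padicNorm p ((q * p ^ j : ℕ) : ℚ) = padicNorm p (q : ℚ) * ((p : ℚ) ^ j)⁻¹ := by
      rw [Nat.cast_mul, padicNorm.mul, hpn]
    rw [this]
    push_cast
    ring
  have h4 : ((padicNorm p (q : ℚ) : ℚ) : ℝ) ≤ 1 := by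
    exact_mod_cast padicNorm.of_nat (p := p) q
  have h5 : ((q * p ^ j : ℕ) : ℝ) * α = (q : ℝ) * ((p : ℝ) ^ j * α) := by push_cast; ring
  have h6 : 0 ≤ nint ((q : ℝ) * ((p : ℝ) ^ j * α)) := abs_nonneg _
  show ((q * p ^ j : ℕ) : ℝ) * ((padicNorm p ((q * p ^ j : ℕ) : ℚ) : ℚ) : ℝ)
    * nint (((q * p ^ j : ℕ) : ℝ) * α) ≤ _
  rw [h5, h3]
  have h7 : ((q * p ^ j : ℕ) : ℝ) * (((padicNorm p (q : ℚ) : ℚ) : ℝ) * ((p : ℝ) ^ j)⁻¹)
      = q * ((padicNorm p (q : ℚ) : ℚ) : ℝ) := by
    push_cast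
    field_simp
  rw [h7]
  have h8 : (q : ℝ) * ((padicNorm p (q : ℚ) : ℚ) : ℝ) ≤ q := by
    calc (q : ℝ) * ((padicNorm p (q : ℚ) : ℚ) : ℝ) ≤ q * 1 :=
          mul_le_mul_of_nonneg_left h4 (by positivity)
      _ = q := mul_one _
  exact mul_le_mul_of_nonneg_right h8 h6

theorem discr_nonneg (x : ℕ → ℝ × ℝ) (N : ℕ) : 0 ≤ discr x N :=
  Real.iSup_nonneg fun _ => abs_nonneg _

theorem discr_le (p : ℕ) (hp : 2 ≤ p) (c α : ℝ) (hc : 0 < c) (hα : UBad p c α) (N : ℕ)
    (hN : 0 < N) (L : ℕ) (hL : N < 2 ^ L) :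
    discr (hybrid p α) N ≤ (1 + L * (p * (3 * L / c + 1))) / N := by
  classical
  have hN' : (0 : ℝ) < N := by exact_mod_cast hN
  unfold discr
  apply Real.iSup_le
  · rintro ⟨⟨a, ha0, ha1⟩, ⟨b, hb0, hb1⟩⟩
    have hNp : N ≤ p ^ L := hL.le.trans (Nat.pow_le_pow_left hp L)
    have h1 := main_induction p hp c hc L L N α 0 a b hα hNp hL ha0 ha1 hb0 hb1
    have h2 : ((((range N).filter fun n =>
        hybrid p α n ∈ Set.Ico (0 : ℝ) a ×ˢ Set.Ico (0 : ℝ) b).card : ℕ) : ℝ)
        = cnt2 p α 0 a b N := by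
      unfold cnt2
      rw [Finset.sum_boole]
      congr 2
      apply Finset.filter_congr
      intro n _
      simp only [hybrid, Set.mem_prod, Set.mem_Ico, zero_add]
      constructor
      · rintro ⟨h3, h4⟩
        exact ⟨h3, h4.2⟩
      · rintro ⟨h3, h4⟩
        exact ⟨h3, phi_nonneg p n, h4⟩
    show |1 / (N : ℝ) * ((((range N).filter fun n =>
        hybrid p α n ∈ Set.Ico (0 : ℝ) a ×ˢ Set.Ico (0 : ℝ) b).card : ℕ) : ℝ) - a * b| ≤ _
    rw [h2]
    have h5 : 1 / (N : ℝ) * cnt2 p α 0 a b N - a * b = (cnt2 p α 0 a b N - a * b * N) / N := by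
      field_simp
    rw [h5, abs_div, abs_of_pos hN']
    exact div_le_div_of_nonneg_right h1 hN'.le
  · positivity

/-- **Main result.** If `p` is a prime and `α ∈ Bad_p`, then the hybrid sequence
`({n α}, φ_p(n))` is a low discrepancy sequence: `D_N = O((log N)^2 / N)`. -/
theorem result (p : ℕ) (hp : p.Prime) (α : ℝ) (hα : BadP p α) :
    (fun N : ℕ => discr (hybrid p α) N)
      =O[atTop] (fun N : ℕ => (Real.log (N : ℝ)) ^ 2 / (N : ℝ)) := by
  obtain ⟨c, hc, hU⟩ := uBad_of_badP p hp α hα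
  have hp0 : (0 : ℝ) < p := by exact_mod_cast hp.pos
  apply Asymptotics.IsBigO.of_bound (9 * (1 + p * (3 / c + 1)))
  rw [eventually_atTop]
  refine ⟨2, fun N hN => ?_⟩
  have hN0 : 0 < N := by omega
  have hN' : (0 : ℝ) < N := by exact_mod_cast hN0
  set L := Nat.log 2 N + 1 with hLdef
  have hL : N < 2 ^ L := Nat.lt_pow_succ_log_self (by norm_num) N
  have h1 := discr_le p hp.two_le c α hc hU N hN0 L hL
  have hlog2 : (0.6931471803 : ℝ) < Real.log 2 := Real.log_two_gt_d9
  have hlogN : Real.log 2 ≤ Real.log N := by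
    apply Real.log_le_log (by norm_num)
    exact_mod_cast hN
  have hlogpos : 0 < Real.log N := by linarith
  have hL3 : (L : ℝ) ≤ 3 * Real.log N := by
    have h2 : 2 ^ (Nat.log 2 N) ≤ N := Nat.pow_log_le_self 2 (by omega)
    have h3 : ((2 : ℝ) ^ (Nat.log 2 N)) ≤ N := by exact_mod_cast h2
    have h4 : (Nat.log 2 N : ℝ) * Real.log 2 ≤ Real.log N := by
      rw [← Real.log_pow]
      exact Real.log_le_log (by positivity) h3
    have h5 : (0 : ℝ) ≤ (Nat.log 2 N : ℝ) := by positivity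
    have h6 : (Nat.log 2 N : ℝ) * 0.6931471803 ≤ Real.log N := by nlinarith
    rw [hLdef]
    push_cast
    nlinarith
  have hL1 : (1 : ℝ) ≤ L := by
    rw [hLdef]
    push_cast
    have : (0 : ℝ) ≤ (Nat.log 2 N : ℝ) := by positivity
    linarith
  rw [Real.norm_of_nonneg (discr_nonneg _ _), Real.norm_of_nonneg (by positivity)]
  refine h1.trans ?_
  rw [← mul_div_assoc]
  apply div_le_div_of_nonneg_right _ hN'.le
  have hLL : (L : ℝ) ≤ (L : ℝ) ^ 2 := by nlinarith
  have h7 : 1 + (L : ℝ) * (p * (3 * L / c + 1)) ≤ (L : ℝ) ^ 2 * (1 + p * (3 / c + 1)) := by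
    have h8 : (L : ℝ) * (p * (3 * L / c + 1)) = (L : ℝ) ^ 2 * (p * (3 / c)) + L * p := by
      field_simp
    have h9 : (L : ℝ) * p ≤ (L : ℝ) ^ 2 * p := mul_le_mul_of_nonneg_right hLL hp0.le
    rw [h8]
    nlinarith
  have h10 : (L : ℝ) ^ 2 ≤ (3 * Real.log N) ^ 2 := by
    apply pow_le_pow_left₀ (by positivity) hL3
  have h11 : 0 ≤ 1 + (p : ℝ) * (3 / c + 1) := by positivity
  calc 1 + (L : ℝ) * (p * (3 * L / c + 1)) ≤ (L : ℝ) ^ 2 * (1 + p * (3 / c + 1)) := h7
    _ ≤ (3 * Real.log N) ^ 2 * (1 + p * (3 / c + 1)) := mul_le_mul_of_nonneg_right h10 h11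
    _ = 9 * (1 + p * (3 / c + 1)) * (Real.log N) ^ 2 := by ring

end Pool.Agent.Results.MP_22b8ff_nt.LowDiscrepancy
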